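import Pool.Agent.H76.Usr

set_option autoImplicit false

namespace Pool.Agent.Results.MP_fc75c6_al.Unbounded

/-- For every `c` there is a finite uniformly semi-rational group whose character field has
degree larger than `c` over the rationals. -/
theorem result (c : ℕ) : ∃ (G : Type) (_ : Group G) (_ : Finite G),
    (∃ m : ℕ, m.Coprime (Nat.card G) ∧ ∀ x y : G, Subgroup.zpowers y = Subgroup.zpowers x →
      IsConj y x ∨ IsConj y (x ^ m)) ∧
    c < Module.finrank ℚ (IntermediateField.adjoin ℚ
      {z : ℂ | ∃ (V : Type) (_ : AddCommGroup V) (_ : Module ℂ V) (_ : FiniteDimensional ℂ V)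
        (ρ : Representation ℂ G V), ρ.IsIrreducible ∧ ∃ x : G, ρ.character x = z}) :=
  Pool.Agent.H76.Usr.main c

end Pool.Agent.Results.MP_fc75c6_al.Unbounded
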